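import Pool.Agent.N662.FP.Stm

/-!
# FL/CORE: the one-point lemma (helper123)
-/

set_option autoImplicit false
open MeasureTheory ProbabilityTheory Filter Set
open scoped ENNReal Pointwise Topology

namespace Pool.Agent.N123.FL.CORE

open Pool.Agent.N662.FP

theorem t_CORE (h1 : S_MED) (h2 : S_GEO) (h3 : S_LAY) : S_CORE := by
  intro Ω _ _ T hT hI m r hr hlc hm h8
  obtain ⟨a, ha1, ha2⟩ := h1 Ω T hT
  obtain ⟨G, hG⟩ : ∃ G : ℝ → ℝ, G = fun t => (volume : Measure Ω).real {ω | t ≤ T ω} := ⟨_, rfl⟩
  have hG' : ∀ t, (volume : Measure Ω).real {ω | t ≤ T ω} = G t := fun t => by rw [hG]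
  simp only [hG'] at hlc h8 ha1 ⊢
  have hG0 : ∀ t, 0 ≤ G t := fun t => by rw [← hG']; exact measureReal_nonneg
  have hanti : Antitone G := by
    intro s t hst
    rw [← hG', ← hG']
    exact measureReal_mono (fun ω hω => le_trans hst hω) (measure_ne_top _ _)
  have hab : a < m + r := by
    by_contra hcon
    push Not at hcon
    have := hanti hcon
    linarith
  obtain ⟨L, hL⟩ : ∃ L, L = m + r - a := ⟨_, rfl⟩
  have hL0 : 0 < L := by rw [hL]; linarith
  have hbL : a + L = m + r := by rw [hL]; ring
  have hgeo := h2 G hG0 hanti hlc a L hL0 ha1 (by rw [hbL]; exact h8)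
  rw [hbL] at hgeo
  have hlay := h3 Ω T hT hI (m + r) L hL0 (fun k => by rw [hG']; exact hgeo k)
  have i1 : Integrable (fun ω => max (T ω - m) 0) (volume : Measure Ω) :=
    (hI.sub (integrable_const m)).pos_part
  have i2 : Integrable (fun ω => max (m - T ω) 0) (volume : Measure Ω) :=
    ((integrable_const m).sub hI).pos_part
  have i3 : Integrable (fun ω => max (T ω - (m + r)) 0) (volume : Measure Ω) :=
    (hI.sub (integrable_const (m + r))).pos_part
  have hM1 : ∫ ω, max (T ω - m) 0 ∂(volume : Measure Ω) ≤ r + L / 6 := by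
    have k1 : ∫ ω, max (T ω - m) 0 ∂(volume : Measure Ω) ≤
        ∫ ω, (r + max (T ω - (m + r)) 0) ∂(volume : Measure Ω) := by
      refine integral_mono i1 ((integrable_const r).add i3) fun ω => ?_
      show max (T ω - m) 0 ≤ r + max (T ω - (m + r)) 0
      have e1 := le_max_left (T ω - (m + r)) 0
      have e2 := le_max_right (T ω - (m + r)) 0
      refine max_le ?_ ?_ <;> linarith
    rw [integral_add (integrable_const r) i3, integral_const, probReal_univ, one_smul] at k1
    linarith
  have hM12 : ∫ ω, max (m - T ω) 0 ∂(volume : Measure Ω) ≤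
      ∫ ω, max (T ω - m) 0 ∂(volume : Measure Ω) := by
    have k1 : ∫ ω, max (m - T ω) 0 ∂(volume : Measure Ω) =
        ∫ ω, (max (T ω - m) 0 - (T ω - m)) ∂(volume : Measure Ω) := by
      congr 1
      funext ω
      rcases le_total (T ω) m with h | h
      · rw [max_eq_left (by linarith), max_eq_right (by linarith)]
        ring
      · rw [max_eq_right (by linarith), max_eq_left (by linarith)]
        ring
    have i4 : Integrable (fun ω => T ω - m) (volume : Measure Ω) := hI.sub (integrable_const m)
    rw [k1, integral_sub i1 i4, integral_sub hI (integrable_const m),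
      integral_const, probReal_univ, one_smul]
    linarith
  have hM2 : (m - a) / 2 ≤ ∫ ω, max (m - T ω) 0 ∂(volume : Measure Ω) := by
    rcases le_total m a with h | h
    · have k1 : 0 ≤ ∫ ω, max (m - T ω) 0 ∂(volume : Measure Ω) :=
        integral_nonneg fun ω => le_max_right _ _
      linarith
    · have hms : MeasurableSet {ω | T ω ≤ a} := measurableSet_le hT measurable_const
      have k1 : ∫ ω, ({ω | T ω ≤ a}).indicator (fun _ => m - a) ω ∂(volume : Measure Ω) ≤
          ∫ ω, max (m - T ω) 0 ∂(volume : Measure Ω) := by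
        refine integral_mono ((integrable_const (m - a)).indicator hms) i2 fun ω => ?_
        show ({ω | T ω ≤ a}).indicator (fun _ => m - a) ω ≤ max (m - T ω) 0
        by_cases h4 : T ω ≤ a
        · rw [indicator_of_mem (show ω ∈ {ω | T ω ≤ a} from h4)]
          refine le_trans ?_ (le_max_left _ _)
          linarith
        · rw [indicator_of_notMem (show ω ∉ {ω | T ω ≤ a} from h4)]
          exact le_max_right _ _
      rw [integral_indicator_const _ hms, smul_eq_mul] at k1
      have k2 : 1 / 2 * (m - a) ≤ (volume : Measure Ω).real {ω | T ω ≤ a} * (m - a) :=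
        mul_le_mul_of_nonneg_right ha2 (by linarith)
      linarith
  have hs : m - a ≤ 7 * r / 2 := by
    rw [hL] at hM1
    linarith
  have hL5 : L ≤ 9 * r / 2 := by
    rw [hL]
    linarith
  refine ⟨fun u hu => ?_, ?_⟩
  · obtain ⟨k, hk⟩ : ∃ k, k = ⌊u / L⌋₊ := ⟨_, rfl⟩
    have k1 : (k : ℝ) ≤ u / L := by rw [hk]; exact Nat.floor_le (by positivity)
    have k2 : u / L < k + 1 := by rw [hk]; exact Nat.lt_floor_add_one _
    have k3 : (k : ℝ) * L ≤ u := by rwa [le_div_iff₀ hL0] at k1
    have k4 : G (m + r + u) ≤ 1 / 8 * (1 / 4) ^ k := (hanti (by linarith)).trans (hgeo k)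
    have he : Real.exp 1 ≤ 4 := by have := Real.exp_one_lt_d9; linarith
    have k5 : (1 / 4 : ℝ) ^ k ≤ Real.exp (-(k : ℝ)) := by
      have : Real.exp (-(k : ℝ)) = (Real.exp (-1)) ^ k := by
        rw [← Real.exp_nat_mul]
        congr 1
        ring
      rw [this]
      refine pow_le_pow_left₀ (by norm_num) ?_ k
      rw [Real.exp_neg, one_div]
      exact inv_anti₀ (Real.exp_pos 1) he
    have k6 : Real.exp (-(k : ℝ)) ≤ Real.exp 1 * Real.exp (-(u / L)) := by
      rw [← Real.exp_add]
      exact Real.exp_le_exp.2 (by linarith)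
    have k7 : Real.exp (-(u / L)) ≤ Real.exp (-(u / (5 * r))) := by
      refine Real.exp_le_exp.2 (neg_le_neg ?_)
      exact div_le_div_of_nonneg_left hu hL0 (by linarith)
    have k8 : 0 < Real.exp (-(u / L)) := Real.exp_pos _
    have k9 : Real.exp 1 * Real.exp (-(u / L)) ≤ 4 * Real.exp (-(u / L)) :=
      mul_le_mul_of_nonneg_right he k8.le
    linarith
  · have k1 : ∫ ω, |T ω - m| ∂(volume : Measure Ω) =
        ∫ ω, (max (T ω - m) 0 + max (m - T ω) 0) ∂(volume : Measure Ω) := by
      congr 1
      funext ω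
      rcases le_total (T ω) m with h | h
      · rw [max_eq_right (by linarith), max_eq_left (by linarith), abs_of_nonpos (by linarith)]
        ring
      · rw [max_eq_left (by linarith), max_eq_right (by linarith), abs_of_nonneg (by linarith)]
        ring
    rw [k1, integral_add i1 i2]
    linarith

end Pool.Agent.N123.FL.CORE
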